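import Pool.Agent.Lib.MP_1e9f59_co.All
import Pool.Agent.Lib.MP_1e9f59_co.Exc

/-!
# MP_1e9f59_co: the acyclic chromatic number of cubic planar 3-connected graphs

`K₄`, the cube and the dual of `P₄ ∨ K₂` have acyclic chromatic number 4, all other cubic planar
3-connected graphs have acyclic chromatic number 3.
-/

set_option autoImplicit false

namespace Pool.Agent.Results.MP_1e9f59_co.AcyclicNumber

open SimpleGraph

/-- `f` is an acyclic `k`-colouring of `G`: a proper colouring for which every two colours
`i ≠ j` induce a forest. -/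
def IsAcyclicColouring {V : Type} (G : SimpleGraph V) (k : ℕ) (f : V → Fin k) : Prop :=
  (∀ u v, G.Adj u v → f u ≠ f v) ∧ ∀ i j : Fin k, i ≠ j → (G.induce (f ⁻¹' {i, j})).IsAcyclic

/-- The acyclic chromatic number. -/
noncomputable def chiA {V : Type} (G : SimpleGraph V) : ℕ :=
  sInf {k | ∃ f : V → Fin k, IsAcyclicColouring G k f}

/-- `G` is 3-connected: it has more than 3 vertices and stays connected after deleting any set of
at most 2 vertices. -/
def ThreeConnected {V : Type} (G : SimpleGraph V) : Prop :=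
  3 < Nat.card V ∧ ∀ S : Set V, S.ncard ≤ 2 → (G.induce Sᶜ).Connected

/-- A rotation system of `G`: a permutation of the darts (oriented edges) whose cycles are the sets
of darts starting at a common vertex. -/
structure RotationSystem {V : Type} (G : SimpleGraph V) where
  σ : Equiv.Perm G.Dart
  fst_eq : ∀ d, (σ d).fst = d.fst
  sameCycle : ∀ d d' : G.Dart, d.fst = d'.fst → σ.SameCycle d d'

/-- The face permutation `d ↦ σ (d reversed)`. -/
def RotationSystem.facePerm {V : Type} {G : SimpleGraph V} (R : RotationSystem G) :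
    Equiv.Perm G.Dart :=
  (Dart.symm_involutive (G := G)).toPerm.trans R.σ

/-- The number of faces: cycles of the face permutation. -/
noncomputable def RotationSystem.faces {V : Type} {G : SimpleGraph V} (R : RotationSystem G) : ℕ :=
  Nat.card (Quotient (Equiv.Perm.SameCycle.setoid R.facePerm))

/-- A (connected) graph is planar if it has a rotation system of genus 0: `V - E + F = 2`. -/
def IsPlanar {V : Type} (G : SimpleGraph V) : Prop :=
  ∃ R : RotationSystem G, Nat.card V + R.faces = Nat.card G.edgeSet + 2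

/-- The 3-dimensional cube graph: vectors in `{0,1}³` which differ in exactly one coordinate. -/
def cubeGraph : SimpleGraph (Fin 3 → Bool) where
  Adj x y := (Finset.univ.filter fun i => x i ≠ y i).card = 1
  symm := ⟨by
    intro x y h
    have e : (Finset.univ.filter fun i => y i ≠ x i) = Finset.univ.filter fun i => x i ≠ y i :=
      Finset.filter_congr fun i _ => ne_comm
    rw [e]
    exact h⟩
  loopless := ⟨by intro x h; simp at h⟩

/-- The 12 edges `ab, ac, bc, bd, ce, de, af, dg, eh, fg, gh, fh`, with `a = 0`, ..., `h = 7`. -/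
def hEdges : Finset (Fin 8 × Fin 8) :=
  {(0, 1), (0, 2), (1, 2), (1, 3), (2, 4), (3, 4), (0, 5), (3, 6), (4, 7), (5, 6), (6, 7), (5, 7)}

/-- The graph `H`, the planar dual of `P₄ ∨ K₂`. -/
def graphH : SimpleGraph (Fin 8) :=
  SimpleGraph.fromRel fun x y => (x, y) ∈ hEdges

/-- `G` is isomorphic to `K₄`, to the cube or to `H`. -/
def Exceptional {V : Type} (G : SimpleGraph V) : Prop :=
  Nonempty (G ≃g (⊤ : SimpleGraph (Fin 4))) ∨ Nonempty (G ≃g cubeGraph) ∨ Nonempty (G ≃g graphH)

/-! ## The exceptions -/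

open Acyc75.Exc in
theorem no_three {V : Type} {G : SimpleGraph V} (e : Fin 8 → V) (he : Function.Injective e) :
    ((∀ x y, q8 x y = true → G.Adj (e x) (e y)) ∨ (∀ x y, h8 x y = true → G.Adj (e x) (e y))) →
    ¬ ∃ f : V → Fin 3, IsAcyclicColouring G 3 f := by
  rintro (hA | hA) ⟨f, hf1, hf2⟩
  · have hne : ∀ x y, q8 x y = true → f (e x) ≠ f (e y) := fun x y h => hf1 _ _ (hA x y h)
    obtain ⟨p, hp⟩ := q_core (f (e 0)) (f (e 1)) (hne 0 1 (by decide)) (f (e 2))
      (hne 0 2 (by decide)) (f (e 3)) (hne 1 3 (by decide)) (hne 2 3 (by decide)) (f (e 4))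
      (hne 0 4 (by decide)) (f (e 5)) (hne 1 5 (by decide)) (hne 4 5 (by decide)) (f (e 6))
      (hne 2 6 (by decide)) (hne 4 6 (by decide)) (f (e 7)) (hne 3 7 (by decide))
      (hne 5 7 (by decide)) (hne 6 7 (by decide))
    have key := hf2 (p + 1) (p + 2) (third_ne p)
    rcases hp with h | h | h | h | h | h | h
    · exact pair_of_list e he q8 hA f p [0, 1, 3, 2] 3 (by norm_num) (by decide) (by decide)
        (by decide) (by simp [h]) (by simp) key
    · exact pair_of_list e he q8 hA f p [0, 1, 5, 4] 3 (by norm_num) (by decide) (by decide)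
        (by decide) (by simp [h]) (by simp) key
    · exact pair_of_list e he q8 hA f p [0, 2, 6, 4] 3 (by norm_num) (by decide) (by decide)
        (by decide) (by simp [h]) (by simp) key
    · exact pair_of_list e he q8 hA f p [1, 3, 2, 6, 4, 5] 5 (by norm_num) (by decide) (by decide)
        (by decide) (by simp [h]) (by simp) key
    · exact pair_of_list e he q8 hA f p [0, 1, 3, 7, 6, 4] 5 (by norm_num) (by decide) (by decide)
        (by decide) (by simp [h]) (by simp) key
    · exact pair_of_list e he q8 hA f p [0, 1, 5, 7, 6, 2] 5 (by norm_num) (by decide) (by decide)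
        (by decide) (by simp [h]) (by simp) key
    · exact pair_of_list e he q8 hA f p [0, 2, 3, 7, 5, 4] 5 (by norm_num) (by decide) (by decide)
        (by decide) (by simp [h]) (by simp) key
  · have hne : ∀ x y, h8 x y = true → f (e x) ≠ f (e y) := fun x y h => hf1 _ _ (hA x y h)
    obtain ⟨p, hp⟩ := h_core (f (e 0)) (f (e 1)) (hne 0 1 (by decide)) (f (e 2))
      (hne 0 2 (by decide)) (hne 1 2 (by decide)) (f (e 3)) (hne 1 3 (by decide)) (f (e 4))
      (hne 2 4 (by decide)) (hne 3 4 (by decide)) (f (e 5)) (hne 0 5 (by decide)) (f (e 6))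
      (hne 3 6 (by decide)) (hne 5 6 (by decide)) (f (e 7)) (hne 4 7 (by decide))
      (hne 6 7 (by decide)) (hne 5 7 (by decide))
    have key := hf2 (p + 1) (p + 2) (third_ne p)
    rcases hp with h | h | h | h
    · exact pair_of_list e he h8 hA f p [1, 2, 4, 3] 3 (by norm_num) (by decide) (by decide)
        (by decide) (by simp [h]) (by simp) key
    · exact pair_of_list e he h8 hA f p [3, 4, 7, 6] 3 (by norm_num) (by decide) (by decide)
        (by decide) (by simp [h]) (by simp) key
    · exact pair_of_list e he h8 hA f p [0, 1, 3, 4, 7, 5] 5 (by norm_num) (by decide) (by decide)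
        (by decide) (by simp [h]) (by simp) key
    · exact pair_of_list e he h8 hA f p [0, 2, 4, 3, 6, 5] 5 (by norm_num) (by decide) (by decide)
        (by decide) (by simp [h]) (by simp) key

/-- A colouring in which smaller neighbours of a vertex have different colours is acyclic. -/
theorem acyclic_of_greedy {V : Type} {G : SimpleGraph V} {k : ℕ} (f : V → Fin k) (r : V → ℕ)
    (hr : Function.Injective r) (h1 : ∀ u v, G.Adj u v → f u ≠ f v)
    (h2 : ∀ v a b, G.Adj v a → G.Adj v b → f a = f b → r a < r v → r b < r v → a = b) :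
    IsAcyclicColouring G k f := by
  refine ⟨h1, fun i j hij => ?_⟩
  refine Acyc75.Exc.acyclic_of_rank (fun w => r w.1) (fun x y h => Subtype.ext (hr h)) ?_
  rintro ⟨v, hv⟩ ⟨a, ha⟩ ⟨b, hb⟩ hva hvb hra hrb
  have e1 : G.Adj v a := hva
  have e2 : G.Adj v b := hvb
  refine Subtype.ext (h2 v a b e1 e2 ?_ hra hrb)
  have n1 := h1 v a e1
  have n2 := h1 v b e2
  simp only [Set.mem_preimage, Set.mem_insert_iff, Set.mem_singleton_iff] at hv ha hb
  rcases hv with hv | hv <;> rcases ha with ha | ha <;> rcases hb with hb | hb <;>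
    first
      | (exact ha.trans hb.symm)
      | (exact absurd (hv.trans ha.symm) n1)
      | (exact absurd (hv.trans hb.symm) n2)

/-- The colours of an acyclic 4-colouring of the cube. -/
def colQ : Fin 8 → Fin 4 := ![0, 1, 2, 3, 3, 2, 0, 1]

/-- The colours of an acyclic 4-colouring of `H`. -/
def colH : Fin 8 → Fin 4 := ![0, 1, 2, 0, 1, 2, 3, 0]

theorem four_q {V : Type} {G : SimpleGraph V} (e : V ≃ Fin 8)
    (hA : ∀ v w, G.Adj v w ↔ Acyc75.Exc.q8 (e v) (e w) = true) :
    ∃ f : V → Fin 4, IsAcyclicColouring G 4 f := by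
  have d1 : ∀ x y, Acyc75.Exc.q8 x y = true → colQ x ≠ colQ y := by decide
  have d2 : ∀ x y z, Acyc75.Exc.q8 x y = true → Acyc75.Exc.q8 x z = true → colQ y = colQ z →
      y.val < x.val → z.val < x.val → y = z := by decide
  exact ⟨fun v => colQ (e v), acyclic_of_greedy _ (fun v => (e v).val)
    (fun x y h => e.injective (Fin.ext h)) (fun u v h => d1 _ _ ((hA u v).1 h))
    fun v a b h h' hc ha hb => e.injective (d2 _ _ _ ((hA v a).1 h) ((hA v b).1 h') hc ha hb)⟩

theorem four_h {V : Type} {G : SimpleGraph V} (e : V ≃ Fin 8)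
    (hA : ∀ v w, G.Adj v w ↔ Acyc75.Exc.h8 (e v) (e w) = true) :
    ∃ f : V → Fin 4, IsAcyclicColouring G 4 f := by
  have d1 : ∀ x y, Acyc75.Exc.h8 x y = true → colH x ≠ colH y := by decide
  have d2 : ∀ x y z, Acyc75.Exc.h8 x y = true → Acyc75.Exc.h8 x z = true → colH y = colH z →
      y.val < x.val → z.val < x.val → y = z := by decide
  exact ⟨fun v => colH (e v), acyclic_of_greedy _ (fun v => (e v).val)
    (fun x y h => e.injective (Fin.ext h)) (fun u v h => d1 _ _ ((hA u v).1 h))
    fun v a b h h' hc ha hb => e.injective (d2 _ _ _ ((hA v a).1 h) ((hA v b).1 h') hc ha hb)⟩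

/-- The vertices of the cube as binary expansions. -/
def bits (n : Fin 8) (i : Fin 3) : Bool := n.val.testBit i.val

theorem bits_bijective : Function.Bijective bits :=
  (Fintype.bijective_iff_injective_and_card bits).2 ⟨by decide, by simp⟩

instance : DecidableRel cubeGraph.Adj := fun x y =>
  inferInstanceAs (Decidable ((Finset.univ.filter fun i => x i ≠ y i).card = 1))

theorem cube_adj : ∀ x y : Fin 8, cubeGraph.Adj (bits x) (bits y) ↔ Acyc75.Exc.q8 x y = true := by
  decide

theorem h_adj : ∀ x y : Fin 8, graphH.Adj x y ↔ Acyc75.Exc.h8 x y = true := by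
  intro x y
  rw [graphH, fromRel_adj]
  revert x y
  decide

theorem exceptional_cases {V : Type} {G : SimpleGraph V} (h : Exceptional G) :
    (∃ f : V → Fin 4, IsAcyclicColouring G 4 f) ∧ ¬ ∃ f : V → Fin 3, IsAcyclicColouring G 3 f := by
  rcases h with ⟨⟨φ⟩⟩ | ⟨⟨φ⟩⟩ | ⟨⟨φ⟩⟩
  · constructor
    · refine ⟨φ, acyclic_of_greedy _ (fun v => (φ v).val)
        (fun x y h => φ.injective (Fin.ext h)) (fun u v h => ?_) fun v a b _ _ hc _ _ => ?_⟩
      · intro e
        exact h.ne (φ.injective e)
      · exact φ.injective hc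
    · rintro ⟨f, hf, -⟩
      have hinj : Function.Injective fun x : Fin 4 => f (φ.symm x) := by
        intro x y hxy
        by_contra hne
        exact hf _ _ (φ.symm.map_adj_iff.2 (by simpa using hne)) hxy
      have := Fintype.card_le_of_injective _ hinj
      simp at this
  · have hb : ∀ v w, G.Adj v w ↔
        Acyc75.Exc.q8 ((Equiv.ofBijective bits bits_bijective).symm (φ v))
          ((Equiv.ofBijective bits bits_bijective).symm (φ w)) = true := by
      intro v w
      rw [← cube_adj, ← φ.map_adj_iff]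
      have e : ∀ z, bits ((Equiv.ofBijective bits bits_bijective).symm z) = z := fun z =>
        (Equiv.ofBijective bits bits_bijective).apply_symm_apply z
      rw [e, e]
    refine ⟨four_q (φ.toEquiv.trans (Equiv.ofBijective bits bits_bijective).symm) hb, ?_⟩
    refine no_three (fun x => φ.symm (bits x))
      (fun x y h => bits_bijective.1 (φ.symm.injective h)) (Or.inl fun x y h => ?_)
    exact φ.symm.map_adj_iff.2 ((cube_adj x y).2 h)
  · have hb : ∀ v w, G.Adj v w ↔ Acyc75.Exc.h8 (φ v) (φ w) = true := by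
      intro v w
      rw [← h_adj, ← φ.map_adj_iff]
    refine ⟨four_h φ.toEquiv hb, ?_⟩
    refine no_three (fun x => φ.symm x) (fun x y h => φ.symm.injective h)
      (Or.inr fun x y h => ?_)
    exact φ.symm.map_adj_iff.2 ((h_adj x y).2 h)

/-! ## Two colours are not enough -/

theorem not_forest {V : Type} [Finite V] {G : SimpleGraph V}
    (h3 : ∀ v, (G.neighborSet v).ncard = 3) (hc : G.Connected) : ¬ G.IsAcyclic := by
  classical
  intro hac
  have : Fintype V := Fintype.ofFinite V
  have ht : G.IsTree := ⟨hc, hac⟩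
  have h1 := ht.card_edgeFinset
  have h2 := G.sum_degrees_eq_twice_card_edges
  have h4 : ∀ v, G.degree v = 3 := by
    intro v
    rw [← h3 v, ← card_neighborSet_eq_degree, ← Nat.card_eq_fintype_card, Nat.card_coe_set_eq]
  rw [Finset.sum_congr rfl fun v _ => h4 v, Finset.sum_const, Finset.card_univ] at h2
  simp only [smul_eq_mul] at h2
  omega

theorem no_two {V : Type} [Finite V] {G : SimpleGraph V}
    (h3 : ∀ v, (G.neighborSet v).ncard = 3) (hc : G.Connected) (k : ℕ) (hk : k < 3) :
    ¬ ∃ f : V → Fin k, IsAcyclicColouring G k f := by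
  rintro ⟨f, hf1, hf2⟩
  have hne := hc.nonempty
  obtain ⟨v⟩ := hne
  have hv : (G.neighborSet v).Nonempty := by
    apply Set.nonempty_of_ncard_ne_zero
    rw [h3 v]
    norm_num
  obtain ⟨w, hw⟩ := hv
  interval_cases k
  · exact (f v).elim0
  · exact hf1 v w hw (Subsingleton.elim _ _)
  · have h1 := hf2 0 1 (by decide)
    have h2 : f ⁻¹' {0, 1} = Set.univ := by
      ext x
      simp only [Set.mem_preimage, Set.mem_insert_iff, Set.mem_singleton_iff, Set.mem_univ,
        iff_true]
      have : ∀ y : Fin 2, y = 0 ∨ y = 1 := by decide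
      exact this _
    rw [h2] at h1
    exact not_forest h3 hc (h1.comap (induceUnivIso G).symm.toHom (induceUnivIso G).symm.injective)

/-! ## The main theorem -/

theorem connected_of {V : Type} {G : SimpleGraph V} (h : ThreeConnected G) : G.Connected := by
  have h1 := h.2 ∅ (by simp)
  rw [Set.compl_empty] at h1
  exact (induceUnivIso G).connected_iff.1 h1

theorem pow_of_sameCycle {α : Type} [Finite α] (π : Equiv.Perm α) (x y : α) :
    π.SameCycle x y ↔ ∃ n : ℕ, (π ^ n) x = y := by
  constructor
  · intro h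
    obtain ⟨n, -, hn⟩ := h.exists_pow_eq'
    exact ⟨n, hn⟩
  · rintro ⟨n, hn⟩
    exact ⟨n, by simpa using hn⟩

/-- The relabelling of the third exception used in the library. -/
def hIso : SimpleGraph.fromRel (fun a b : Fin 8 => (a, b) ∈ ({(0, 6), (0, 1), (1, 2), (2, 7),
      (3, 6), (3, 4), (4, 5), (5, 7), (0, 3), (1, 4), (2, 5), (6, 7)} : Finset (Fin 8 × Fin 8)))
    ≃g graphH where
  toFun := ![1, 3, 6, 2, 4, 7, 0, 5]
  invFun := ![6, 0, 3, 1, 4, 7, 2, 5]
  left_inv := by decide
  right_inv := by decide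
  map_rel_iff' := by
    intro x y
    rw [graphH, fromRel_adj, fromRel_adj]
    revert x y
    decide

theorem colourable {V : Type} [Finite V] {G : SimpleGraph V}
    (h3 : ∀ v, (G.neighborSet v).ncard = 3) (hc : ThreeConnected G) (hp : IsPlanar G)
    (hex : ¬ Exceptional G) : ∃ f : V → Fin 3, IsAcyclicColouring G 3 f := by
  classical
  have : Fintype V := Fintype.ofFinite V
  obtain ⟨R, hR⟩ := hp
  have hfin : Finite G.Dart := inferInstance
  let E : Quotient (Equiv.Perm.SameCycle.setoid R.facePerm) ≃ Fin R.faces := Finite.equivFin _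
  have hface : ∀ d d' : G.Dart, E ⟦d⟧ = E ⟦d'⟧ ↔ ∃ n : ℕ, (R.facePerm ^ n) d = d' := by
    intro d d'
    rw [← pow_of_sameCycle, E.apply_eq_iff_eq, Quotient.eq]
    rfl
  have hsurj : Function.Surjective fun d : G.Dart => E ⟦d⟧ := by
    intro i
    obtain ⟨q, hq⟩ := E.surjective i
    obtain ⟨d, rfl⟩ := Quotient.exists_rep q
    exact ⟨d, hq⟩
  have cubeIso : SimpleGraph.fromRel
      (fun x y : Fin 3 → Bool => ∃ i, x i ≠ y i ∧ ∀ j, j ≠ i → x j = y j) = cubeGraph := by
    ext x y
    rw [fromRel_adj]
    revert x y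
    decide
  obtain ⟨c, hcol⟩ := Acyc75.all75 V G (fun v => by
      rw [Nat.card_coe_set_eq]; exact h3 v) (connected_of hc)
    (by rw [← Nat.card_eq_fintype_card]; exact hc.1)
    (fun u v => hc.2 {u, v} (by
      refine (Set.ncard_insert_le _ _).trans ?_
      simp))
    ⟨R.faces, by rw [← Nat.card_eq_fintype_card]; omega, R.σ, R.facePerm, fun d => E ⟦d⟧,
      R.fst_eq, fun d d' h => (pow_of_sameCycle _ _ _).1 (R.sameCycle d d' h), fun d => rfl,
      hface, hsurj⟩
    (fun h => hex (Or.inl h))
    (fun h => hex (Or.inr (Or.inl (by rw [cubeIso] at h; exact h))))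
    (fun ⟨φ⟩ => hex (Or.inr (Or.inr ⟨φ.trans hIso⟩)))
  exact ⟨c, fun u v h => c.valid h, fun i j _ => hcol i j⟩

/-- `K₄`, the cube and `H` have acyclic chromatic number 4; all other cubic planar 3-connected
graphs have acyclic chromatic number 3. -/
theorem result (V : Type) [Finite V] (G : SimpleGraph V)
    (hcubic : ∀ v, (G.neighborSet v).ncard = 3) (h3 : ThreeConnected G) (hpl : IsPlanar G) :
    (Exceptional G → chiA G = 4) ∧ (¬ Exceptional G → chiA G = 3) := by
  have hc := connected_of h3
  have low : ∀ k < 3, ¬ ∃ f : V → Fin k, IsAcyclicColouring G k f := no_two hcubic hc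
  constructor
  · intro hex
    obtain ⟨h4, hn3⟩ := exceptional_cases hex
    apply le_antisymm
    · exact Nat.sInf_le h4
    · have hmem : chiA G ∈ {k | ∃ f : V → Fin k, IsAcyclicColouring G k f} := Nat.sInf_mem ⟨4, h4⟩
      by_contra hlt
      rcases Nat.lt_or_ge (chiA G) 3 with h | h
      · exact low _ h hmem
      · have e : chiA G = 3 := by omega
        rw [e] at hmem
        exact hn3 hmem
  · intro hex
    have hcol := colourable hcubic h3 hpl hex
    apply le_antisymm
    · exact Nat.sInf_le hcol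
    · have hmem : chiA G ∈ {k | ∃ f : V → Fin k, IsAcyclicColouring G k f} :=
        Nat.sInf_mem ⟨3, hcol⟩
      by_contra hlt
      exact low _ (by omega) hmem

end Pool.Agent.Results.MP_1e9f59_co.AcyclicNumber
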